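import Pool.Agent.Q27.HT.Det

/-!
# Closure properties of detection
-/

set_option autoImplicit false

namespace Q27.HT

open Q182.Cyl (InfOrd)
open Q182.De (Kz LC exists_psi Al)
open scoped commutatorElement

theorem self_mem_KC {G : Type} [Group G] (z : G) : z ∈ KC z := ⟨1, one_pos, by rw [pow_one]⟩

theorem map_KC {G H : Type} [Group G] [Group H] (f : G →* H) (z : G) :
    (KC z).map f ≤ KC (f z) := by
  rintro _ ⟨g, ⟨k, hk, h⟩, rfl⟩
  exact ⟨k, hk, by rw [← map_pow, ← map_mul, h, map_mul]⟩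

/-- homomorphisms preserve being in the commutator subgroup -/
theorem push {G H : Type} [Group G] [Group H] (f : G →* H) {z : G} {n : ℕ}
    (h : z ^ n ∈ ⁅KC z, KC z⁆) : f z ^ n ∈ ⁅KC (f z), KC (f z)⁆ := by
  have h1 : f (z ^ n) ∈ (⁅KC z, KC z⁆).map f := ⟨_, h, rfl⟩
  rw [Subgroup.map_commutator, map_pow] at h1
  exact Subgroup.commutator_mono (map_KC f z) (map_KC f z) h1

/-- detection in sufficiently many images -/
theorem Det.of_hom {G : Type} [Group G]
    (h : ∀ z : G, InfOrd z → ∃ (H : Type) (_ : Group H) (f : G →* H), Det H ∧ InfOrd (f z)) :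
    Det G := by
  intro z hz n hn hmem
  obtain ⟨H, _, f, hH, hf⟩ := h z hz
  exact hH (f z) hf n hn (push f hmem)

theorem Det.of_injective {G H : Type} [Group G] [Group H] (f : G →* H)
    (hf : Function.Injective f) (hH : Det H) : Det G :=
  Det.of_hom fun z hz => ⟨H, inferInstance, f, hH, fun n hn h =>
    hz n hn (hf (by rw [map_pow, h, map_one]))⟩

theorem Det.prod {G H : Type} [Group G] [Group H] (hG : Det G) (hH : Det H) : Det (G × H) := by
  refine Det.of_hom fun z hz => ?_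
  by_cases h1 : InfOrd z.1
  · exact ⟨G, inferInstance, MonoidHom.fst G H, hG, h1⟩
  · refine ⟨H, inferInstance, MonoidHom.snd G H, hH, fun n hn h => ?_⟩
    unfold InfOrd at h1
    push Not at h1
    obtain ⟨m, hm, h1⟩ := h1
    refine hz (m * n) (Nat.mul_pos hm hn) (Prod.ext ?_ ?_)
    · show z.1 ^ (m * n) = 1
      rw [pow_mul, h1, one_pow]
    · show z.2 ^ (m * n) = 1
      have h2 : z.2 ^ n = 1 := h
      rw [mul_comm, pow_mul, h2, one_pow]

theorem det_comm {G : Type} [Group G] (h : ∀ a b : G, a * b = b * a) : Det G := by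
  intro z hz n hn hmem
  have h1 : ⁅KC z, KC z⁆ ≤ ⊥ := by
    rw [Subgroup.commutator_le]
    intro a _ b _
    rw [Subgroup.mem_bot, commutatorElement_eq_one_iff_mul_comm]
    exact h a b
  exact hz n hn (Subgroup.mem_bot.1 (h1 hmem))

theorem det_torsion {G : Type} [Group G] (h : ∀ a : G, ∃ n : ℕ, 0 < n ∧ a ^ n = 1) : Det G := by
  intro z hz
  obtain ⟨n, hn, h1⟩ := h z
  exact absurd h1 (hz n hn)

theorem exists_finset {G : Type} [Group G] {K : Subgroup G} {x : G} (hx : x ∈ ⁅K, K⁆) :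
    ∃ s : Finset G, (s : Set G) ⊆ K ∧
      x ∈ ⁅Subgroup.closure (s : Set G), Subgroup.closure (s : Set G)⁆ := by
  classical
  rw [Subgroup.commutator_def] at hx
  refine Subgroup.closure_induction (p := fun x _ => ∃ s : Finset G, (s : Set G) ⊆ K ∧
      x ∈ ⁅Subgroup.closure (s : Set G), Subgroup.closure (s : Set G)⁆) ?_ ?_ ?_ ?_ hx
  · rintro _ ⟨a, ha, b, hb, rfl⟩
    refine ⟨{a, b}, ?_, Subgroup.commutator_mem_commutator (Subgroup.subset_closure (by simp))
      (Subgroup.subset_closure (by simp))⟩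
    intro y hy
    rw [Finset.coe_insert, Finset.coe_singleton] at hy
    rcases hy with rfl | hy
    · exact ha
    · rw [Set.mem_singleton_iff.1 hy]
      exact hb
  · exact ⟨∅, by simp, Subgroup.one_mem _⟩
  · rintro a b _ _ ⟨s, hs, h1⟩ ⟨t, ht, h2⟩
    refine ⟨s ∪ t, ?_, Subgroup.mul_mem _ ?_ ?_⟩
    · rw [Finset.coe_union]
      exact Set.union_subset hs ht
    · have h3 : Subgroup.closure (s : Set G) ≤ Subgroup.closure ((s ∪ t : Finset G) : Set G) :=
        Subgroup.closure_mono (by simp)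
      exact Subgroup.commutator_mono h3 h3 h1
    · have h3 : Subgroup.closure (t : Set G) ≤ Subgroup.closure ((s ∪ t : Finset G) : Set G) :=
        Subgroup.closure_mono (by simp)
      exact Subgroup.commutator_mono h3 h3 h2
  · rintro a _ ⟨s, hs, h1⟩
    exact ⟨s, hs, Subgroup.inv_mem _ h1⟩

/-- detection is a local property -/
theorem Det.of_local {G : Type} [Group G]
    (h : ∀ s : Finset G, Det (Subgroup.closure (s : Set G))) : Det G := by
  classical
  intro z hz n hn hmem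
  obtain ⟨s, hs, h1⟩ := exists_finset hmem
  obtain ⟨S, hS⟩ : ∃ S, S = Subgroup.closure ((insert z s : Finset G) : Set G) := ⟨_, rfl⟩
  have hD : Det S := by
    rw [hS]
    exact h _
  have hzS : z ∈ S := by
    rw [hS]
    exact Subgroup.subset_closure (by simp)
  have hle : Subgroup.closure (s : Set G) ≤ (KC (⟨z, hzS⟩ : S)).map S.subtype := by
    rw [Subgroup.closure_le]
    intro y hy
    have hyS : y ∈ S := by
      rw [hS]
      exact Subgroup.subset_closure (by rw [Finset.coe_insert]; exact Or.inr hy)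
    obtain ⟨k, hk, h2⟩ := hs hy
    exact ⟨⟨y, hyS⟩, ⟨k, hk, Subtype.ext h2⟩, rfl⟩
  have h2 := Subgroup.commutator_mono hle hle h1
  rw [← Subgroup.map_commutator] at h2
  obtain ⟨y, hy, hy'⟩ := h2
  have h3 : y = (⟨z, hzS⟩ : S) ^ n := Subtype.ext hy'
  refine hD ⟨z, hzS⟩ (fun m hm h => hz m hm (congrArg Subtype.val h)) n hn ?_
  rwa [← h3]

/-- detection passes to overgroups of finite index -/
theorem Det.of_finiteIndex {G : Type} [Group G] (K : Subgroup G) [hKi : K.FiniteIndex]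
    (hK : Det K) : Det G := by
  classical
  intro z hz n hn
  obtain ⟨m, hm, _, hzm⟩ := Subgroup.exists_pow_mem_of_index_ne_zero hKi.index_ne_zero z
  obtain ⟨c, hc⟩ : ∃ c : K, (c : G) = z ^ m := ⟨⟨z ^ m, hzm⟩, rfl⟩
  have hci : InfOrd c := fun i hi h => hz (m * i) (Nat.mul_pos hm hi) (by
    rw [pow_mul, ← hc, ← Subgroup.coe_pow, h, Subgroup.coe_one])
  obtain ⟨ψ, h1, h2⟩ := exists_psi hci (KC c) (by
    intro k hk
    by_contra hne
    refine hK c hci k.natAbs (Int.natAbs_pos.2 hne) ?_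
    rcases Int.natAbs_eq k with h | h
    · have h3 : c ^ k.natAbs = c ^ k := by
        conv_rhs => rw [h]
        rw [zpow_natCast]
      rw [h3]
      exact hk
    · have h3 : c ^ k.natAbs = (c ^ k)⁻¹ := by
        conv_rhs => rw [h]
        rw [zpow_neg, inv_inv, zpow_natCast]
      rw [h3]
      exact Subgroup.inv_mem _ hk)
  have hmem : ∀ x : (K.subgroupOf (KC z)), (⟨((x : KC z) : G), x.2⟩ : K) ∈ KC c := by
    rintro ⟨⟨x, k, hk, hx⟩, hxK⟩
    refine ⟨k, hk, Subtype.ext ?_⟩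
    show x * (c : G) ^ k = (c : G) ^ k * x
    rw [hc, ← pow_mul, mul_comm m, pow_mul]
    exact ((show Commute x (z ^ k) from hx).pow_right m).eq
  obtain ⟨φ, hφ⟩ : ∃ φ : K.subgroupOf (KC z) →* Multiplicative ℚ,
      ∀ x, φ x = Multiplicative.ofAdd (ψ ⟨((x : KC z) : G), x.2⟩) := by
    refine ⟨{ toFun := fun x => Multiplicative.ofAdd (ψ ⟨((x : KC z) : G), x.2⟩)
              map_one' := ?_
              map_mul' := ?_ }, fun _ => rfl⟩
    · have h3 := h1 1 (KC c).one_mem 1 (KC c).one_mem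
      rw [mul_one] at h3
      have h4 : ψ 1 = 0 := by linarith
      show Multiplicative.ofAdd (ψ 1) = 1
      rw [h4]
      rfl
    · intro x y
      rw [← ofAdd_add, ← h1 _ (hmem x) _ (hmem y)]
      rfl
  have hfin : (K.subgroupOf (KC z)).FiniteIndex := inferInstance
  have hzz : z ∈ KC z := self_mem_KC z
  refine not_mem_of_hom (MonoidHom.transfer φ) (m := 1) (by rw [pow_one]; exact hzz) ?_ hn
  have e0 : (⟨z ^ 1, by rw [pow_one]; exact hzz⟩ : KC z) = ⟨z, hzz⟩ := Subtype.ext (pow_one z)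
  rw [e0]
  have : Fintype (Quotient (MulAction.orbitRel (Subgroup.zpowers (⟨z, hzz⟩ : KC z))
      (KC z ⧸ K.subgroupOf (KC z)))) := Fintype.ofFinite _
  rw [MonoidHom.transfer_eq_prod_quotient_orbitRel_zpowers_quot]
  have hfac : ∀ (x : K.subgroupOf (KC z)) (g : KC z) (p : ℕ),
      ((x : KC z) : G) = (g : G)⁻¹ * z ^ p * (g : G) → φ x = Multiplicative.ofAdd ((p : ℚ) / m) := by
    intro x g p hx
    rw [hφ]
    congr 1
    apply h2 _ (hmem x)
    obtain ⟨k, hk, hk'⟩ := mem_KC.1 g.2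
    refine ⟨m * k, (p * k : ℕ), Nat.mul_pos hm hk, Subtype.ext ?_, ?_⟩
    · show ((x : KC z) : G) ^ (m * k) = (((c ^ ((p * k : ℕ) : ℤ) : K)) : G)
      rw [zpow_natCast, Subgroup.coe_pow, hc, hx, ← pow_mul]
      have e1 : (g : G)⁻¹ * z ^ p * (g : G) = (g : G)⁻¹ * z ^ p * ((g : G)⁻¹)⁻¹ := by rw [inv_inv]
      have e2 : m * (p * k) = k * (p * m) := by ring
      have e3 : p * (m * k) = k * (p * m) := by ring
      rw [e1, conj_pow, ← pow_mul, e2, e3, inv_inv]
      have e4 : (g : G) * z ^ (k * (p * m)) = z ^ (k * (p * m)) * (g : G) := by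
        rw [pow_mul]
        exact ((show Commute (g : G) (z ^ k) from hk').pow_right _).eq
      rw [mul_assoc, ← e4, inv_mul_cancel_left]
    · push_cast
      have h3 : (k : ℚ) ≠ 0 := by positivity
      have h4 : (m : ℚ) ≠ 0 := by positivity
      field_simp
  have hfactor : ∀ q : Quotient (MulAction.orbitRel (Subgroup.zpowers (⟨z, hzz⟩ : KC z))
      (KC z ⧸ K.subgroupOf (KC z))),
      φ ⟨q.out.out⁻¹ * (⟨z, hzz⟩ : KC z) ^ Function.minimalPeriod ((⟨z, hzz⟩ : KC z) • ·) q.out *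
        q.out.out, QuotientGroup.out_conj_pow_minimalPeriod_mem (K.subgroupOf (KC z)) ⟨z, hzz⟩
          q.out⟩ =
      Multiplicative.ofAdd
        ((Function.minimalPeriod ((⟨z, hzz⟩ : KC z) • ·) q.out : ℚ) / m) :=
    fun q => hfac _ q.out.out _ rfl
  rw [Finset.prod_congr rfl (fun q _ => hfactor q)]
  have h3 := Subgroup.index_eq_sum_minimalPeriod (K.subgroupOf (KC z)) (⟨z, hzz⟩ : KC z)
  rw [← ofAdd_sum, ← Finset.sum_div]
  intro h4
  have h5 : (∑ q : Quotient (MulAction.orbitRel (Subgroup.zpowers (⟨z, hzz⟩ : KC z))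
      (KC z ⧸ K.subgroupOf (KC z))),
      (Function.minimalPeriod ((⟨z, hzz⟩ : KC z) • ·) q.out : ℚ)) / m = 0 :=
    congrArg Multiplicative.toAdd h4
  have h6 : (((K.subgroupOf (KC z)).index : ℕ) : ℚ) / m = 0 := by
    rw [← h5, h3]
    push_cast
    rfl
  have h7 : (m : ℚ) ≠ 0 := by positivity
  rw [div_eq_zero_iff] at h6
  rcases h6 with h6 | h6
  · exact hfin.index_ne_zero (by exact_mod_cast h6)
  · exact h7 h6

end Q27.HT
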