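import Pool.Agent.Helper270.Tree

/-!
# Homomorphisms from compatible homomorphisms on the stabilizers of a tree

A rational cocycle on (a connected part of) a tree which is compatible on the edges is cohomologous
to a homomorphism.
-/

set_option autoImplicit false

namespace Q27.HT

open SimpleGraph
open Pool.Agent.Helper270.Tree

section potential

variable {V : Type} {T : SimpleGraph V}

/-- every alternating function on the edges of a tree is the difference of a function -/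
theorem exists_potential (hT : T.IsTree) (b : V → V → ℚ)
    (hb : ∀ v w, T.Adj v w → b v w = - b w v) :
    ∃ a : V → ℚ, ∀ v w, T.Adj v w → a w - a v = b v w := by
  classical
  obtain ⟨o⟩ := hT.connected.nonempty
  have hpar : ∀ v, v ≠ o → ∃ w, T.Adj w v ∧ T.dist o v = T.dist o w + 1 := by
    intro v hv
    obtain ⟨q, hq0, hqn, hadj, hd, _⟩ := exists_geod hT o v
    have hpos : 0 < T.dist o v := hT.connected.pos_dist_of_ne (fun h => hv h.symm)
    refine ⟨q (T.dist o v - 1), ?_, ?_⟩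
    · have h1 := hadj (T.dist o v - 1) (by omega)
      rwa [Nat.sub_add_cancel hpos, hqn] at h1
    · rw [(hd (T.dist o v - 1) (by omega)).1]
      omega
  choose! par hpadj hpd using hpar
  let A : ℕ → V → ℚ := fun n => Nat.rec (fun _ => 0)
    (fun n an v => if T.dist o v = n + 1 then an (par v) + b (par v) v else an v) n
  have hA : ∀ n v, T.dist o v = n + 1 → A (n + 1) v = A n (par v) + b (par v) v := by
    intro n v hv
    show (if T.dist o v = n + 1 then A n (par v) + b (par v) v else A n v) = _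
    rw [if_pos hv]
  have key : ∀ v w, T.Adj v w → T.dist o w = T.dist o v + 1 →
      A (T.dist o w) w - A (T.dist o v) v = b v w := by
    intro v w hvw hd
    have hne : w ≠ o := by
      rintro rfl
      rw [SimpleGraph.dist_self] at hd
      omega
    have hp : par w = v := parent_unique hT (hpadj w hne) hvw (hpd w hne) hd
    rw [hd, hA _ w hd, hp]
    ring
  refine ⟨fun v => A (T.dist o v) v, fun v w hvw => ?_⟩
  rcases hT.dist_eq_dist_add_one_of_adj o hvw with h | h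
  · have h1 := key w v hvw.symm h
    show A (T.dist o w) w - A (T.dist o v) v = b v w
    rw [hb v w hvw, ← h1]
    ring
  · exact key v w hvw h

end potential

section cocycle

variable {H V : Type} [Group H] [MulAction H V] {T : SimpleGraph V}

/-- **a compatible cocycle is a homomorphism on the stabilizers** -/
theorem tree_hom (hT : T.IsTree) (hadj : ∀ (g : H) (v w : V), T.Adj v w → T.Adj (g • v) (g • w))
    (Y : Set V) (hY : ∀ (g : H) (v : V), v ∈ Y → g • v ∈ Y) (hne : Y.Nonempty)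
    (hconn : ∀ v ∈ Y, ∀ w ∈ Y, ∃ (n : ℕ) (q : ℕ → V), q 0 = v ∧ q n = w ∧
      (∀ i < n, T.Adj (q i) (q (i + 1))) ∧ ∀ i ≤ n, q i ∈ Y)
    (c : H → V → ℚ) (hc : ∀ (h k : H), ∀ v ∈ Y, c (h * k) v = c h v + c k (h⁻¹ • v))
    (hcomp : ∀ h : H, ∀ v ∈ Y, ∀ w ∈ Y, T.Adj v w → h • v = v → h • w = w → c h v = c h w) :
    ∃ f : H →* Multiplicative ℚ, ∀ (h : H), ∀ v ∈ Y, h • v = v →
      f h = Multiplicative.ofAdd (c h v) := by
  classical
  -- the difference on the edges
  obtain ⟨d, hd⟩ : ∃ d : H → V × V → ℚ, ∀ h e, d h e = c h e.2 - c h e.1 := ⟨_, fun _ _ => rfl⟩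
  have hE : ∀ {e : V × V}, (e.1 ∈ Y ∧ e.2 ∈ Y ∧ T.Adj e.1 e.2) → ∀ g : H,
      ((g • e).1 ∈ Y ∧ (g • e).2 ∈ Y ∧ T.Adj (g • e).1 (g • e).2) := by
    rintro ⟨v, w⟩ ⟨h1, h2, h3⟩ g
    exact ⟨hY g v h1, hY g w h2, hadj g v w h3⟩
  have hdc : ∀ (h k : H) (e : V × V), (e.1 ∈ Y ∧ e.2 ∈ Y ∧ T.Adj e.1 e.2) →
      d (h * k) e = d h e + d k (h⁻¹ • e) := by
    intro h k e he
    rw [hd, hd, hd, hc h k e.2 he.2.1, hc h k e.1 he.1]
    show _ = _ + (c k (h⁻¹ • e.2) - c k (h⁻¹ • e.1))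
    ring
  have hd0 : ∀ (h : H) (e : V × V), (e.1 ∈ Y ∧ e.2 ∈ Y ∧ T.Adj e.1 e.2) → h • e = e →
      d h e = 0 := by
    rintro h ⟨v, w⟩ ⟨h1, h2, h3⟩ he
    rw [hd, hcomp h v h1 w h2 h3 (congrArg Prod.fst he) (congrArg Prod.snd he), sub_self]
  -- representatives of the orbits of edges
  have hrep : ∀ e : V × V, ∃ s : H, s • (Quotient.mk (MulAction.orbitRel H (V × V)) e).out = e := by
    intro e
    have h1 : (MulAction.orbitRel H (V × V)) (Quotient.mk (MulAction.orbitRel H (V × V)) e).out e :=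
      Quotient.exact (Quotient.out_eq _)
    have h2 := (MulAction.orbitRel H (V × V)).symm h1
    exact h2
  choose s hs using hrep
  obtain ⟨b, hb⟩ : ∃ b : V × V → ℚ, ∀ e, b e = d (s e) e := ⟨_, fun _ => rfl⟩
  have hbd : ∀ (h : H) (e : V × V), (e.1 ∈ Y ∧ e.2 ∈ Y ∧ T.Adj e.1 e.2) →
      d h e = b e - b (h⁻¹ • e) := by
    intro h e he
    have hq : Quotient.mk (MulAction.orbitRel H (V × V)) (h⁻¹ • e) =
        Quotient.mk (MulAction.orbitRel H (V × V)) e := Quotient.sound ⟨h⁻¹, rfl⟩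
    have h1 := hs (h⁻¹ • e)
    rw [hq] at h1
    have h2 := hs e
    obtain ⟨e₀, he₀⟩ : ∃ e₀, e₀ = (Quotient.mk (MulAction.orbitRel H (V × V)) e).out := ⟨_, rfl⟩
    rw [← he₀] at h1 h2
    obtain ⟨k, hk⟩ : ∃ k : H, h * s (h⁻¹ • e) = s e * k := ⟨(s e)⁻¹ * (h * s (h⁻¹ • e)), by group⟩
    have h3 : k • e₀ = e₀ := by
      have h4 : (s e * k) • e₀ = e := by
        rw [← hk, mul_smul, h1, smul_inv_smul]
      rw [mul_smul] at h4
      have h5 := congrArg (fun x => (s e)⁻¹ • x) (h4.trans h2.symm)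
      simpa only [inv_smul_smul] using h5
    have he₀E : e₀.1 ∈ Y ∧ e₀.2 ∈ Y ∧ T.Adj e₀.1 e₀.2 := by
      have h4 := hE he (s e)⁻¹
      have h5 : (s e)⁻¹ • e = e₀ := by rw [inv_smul_eq_iff, h2]
      rwa [h5] at h4
    have h4 := hdc h (s (h⁻¹ • e)) e he
    have h5 := hdc (s e) k e he
    have h6 : (s e)⁻¹ • e = e₀ := by rw [inv_smul_eq_iff, h2]
    rw [h6, hd0 k e₀ he₀E h3, add_zero] at h5
    rw [hk, h5] at h4
    rw [hb, hb]
    linarith
  obtain ⟨b', hb'⟩ : ∃ b' : V → V → ℚ, ∀ v w, b' v w =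
      if v ∈ Y ∧ w ∈ Y then (b (v, w) - b (w, v)) / 2 else 0 := ⟨_, fun _ _ => rfl⟩
  have halt : ∀ v w, T.Adj v w → b' v w = - b' w v := by
    intro v w _
    rw [hb', hb']
    by_cases h : v ∈ Y ∧ w ∈ Y
    · rw [if_pos h, if_pos h.symm]
      ring
    · rw [if_neg h, if_neg (fun h' => h h'.symm), neg_zero]
  have hbd' : ∀ (h : H) (v w : V), v ∈ Y → w ∈ Y → T.Adj v w →
      c h w - c h v = b' v w - b' (h⁻¹ • v) (h⁻¹ • w) := by
    intro h v w hv hw hvw
    have h1 := hbd h (v, w) ⟨hv, hw, hvw⟩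
    have h2 := hbd h (w, v) ⟨hw, hv, hvw.symm⟩
    rw [hd] at h1 h2
    rw [hb', hb', if_pos ⟨hv, hw⟩, if_pos ⟨hY _ _ hv, hY _ _ hw⟩]
    have e1 : h⁻¹ • (v, w) = (h⁻¹ • v, h⁻¹ • w) := rfl
    have e2 : h⁻¹ • (w, v) = (h⁻¹ • w, h⁻¹ • v) := rfl
    rw [e1] at h1
    rw [e2] at h2
    simp only at h1 h2
    linarith
  obtain ⟨a, ha⟩ := exists_potential hT b' halt
  -- the corrected cocycle is constant
  have hstep : ∀ (h : H) (v w : V), v ∈ Y → w ∈ Y → T.Adj v w →
      c h v - a v + a (h⁻¹ • v) = c h w - a w + a (h⁻¹ • w) := by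
    intro h v w hv hw hvw
    have h1 := hbd' h v w hv hw hvw
    have h2 := ha v w hvw
    have h3 := ha _ _ (hadj h⁻¹ v w hvw)
    linarith
  have hconst : ∀ (h : H) (v w : V), v ∈ Y → w ∈ Y →
      c h v - a v + a (h⁻¹ • v) = c h w - a w + a (h⁻¹ • w) := by
    intro h v w hv hw
    obtain ⟨n, q, rfl, rfl, h1, h2⟩ := hconn v hv w hw
    have key : ∀ i ≤ n, c h (q 0) - a (q 0) + a (h⁻¹ • q 0) =
        c h (q i) - a (q i) + a (h⁻¹ • q i) := by
      intro i
      induction i with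
      | zero => intro _; rfl
      | succ i ih =>
        intro hi
        rw [ih (by omega)]
        exact hstep h _ _ (h2 i (by omega)) (h2 (i + 1) hi) (h1 i (by omega))
    exact key n le_rfl
  obtain ⟨v₀, hv₀⟩ := hne
  refine ⟨{ toFun := fun h => Multiplicative.ofAdd (c h v₀ - a v₀ + a (h⁻¹ • v₀))
            map_one' := ?_
            map_mul' := ?_ }, ?_⟩
  · have h1 := hc 1 1 v₀ hv₀
    rw [mul_one, inv_one, one_smul] at h1
    have h2 : c 1 v₀ = 0 := by linarith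
    rw [inv_one, one_smul, h2]
    show Multiplicative.ofAdd (0 - a v₀ + a v₀) = 1
    rw [zero_sub, neg_add_cancel]
    rfl
  · intro h k
    rw [← ofAdd_add]
    congr 1
    have h1 := hc h k v₀ hv₀
    have h2 := hconst k (h⁻¹ • v₀) v₀ (hY _ _ hv₀) hv₀
    have h3 : (h * k)⁻¹ • v₀ = k⁻¹ • h⁻¹ • v₀ := by rw [mul_inv_rev, mul_smul]
    rw [h1, h3]
    linarith
  · intro h v hv hfix
    show Multiplicative.ofAdd (c h v₀ - a v₀ + a (h⁻¹ • v₀)) = _
    rw [hconst h v₀ v hv₀ hv]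
    have h1 : h⁻¹ • v = v := by rw [inv_smul_eq_iff, hfix]
    rw [h1]
    congr 1
    ring

end cocycle

end Q27.HT
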