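import Pool.Agent.Q27.HT.Coc
import Pool.Agent.Q182.DeFin

/-!
# Detected elements of infinite order in groups acting on trees
-/

set_option autoImplicit false

namespace Q27.HT

open SimpleGraph
open Pool.Agent.Helper270.Tree
open Q182.Cyl (Est InfOrd VcEdges)
open Q182.De (Kz LC exists_psi Al)
open scoped commutatorElement

/-- the elements which commute with a positive power of `z` -/
def KC {G : Type} [Group G] (z : G) : Subgroup G where
  carrier := {g | ∃ k : ℕ, 0 < k ∧ g * z ^ k = z ^ k * g}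
  one_mem' := ⟨1, one_pos, by rw [one_mul, mul_one]⟩
  mul_mem' := by
    rintro a b ⟨i, hi, h1⟩ ⟨j, hj, h2⟩
    refine ⟨i * j, Nat.mul_pos hi hj, ?_⟩
    have h3 : Commute a (z ^ (i * j)) := by
      rw [pow_mul]
      exact (show Commute a (z ^ i) from h1).pow_right j
    have h4 : Commute b (z ^ (i * j)) := by
      rw [mul_comm i, pow_mul]
      exact (show Commute b (z ^ j) from h2).pow_right i
    exact (h3.mul_left h4).eq
  inv_mem' := by
    rintro a ⟨i, hi, h1⟩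
    exact ⟨i, hi, (show Commute a (z ^ i) from h1).inv_left.eq⟩

theorem mem_KC {G : Type} [Group G] {z g : G} :
    g ∈ KC z ↔ ∃ k : ℕ, 0 < k ∧ g * z ^ k = z ^ k * g := Iff.rfl

/-- each element of infinite order is detected by the abelianization of the group of the elements
which commute with one of its powers -/
def Det (G : Type) [Group G] : Prop :=
  ∀ z : G, (∀ n : ℕ, 0 < n → z ^ n ≠ 1) → ∀ n : ℕ, 0 < n → z ^ n ∉ ⁅KC z, KC z⁆

/-- a homomorphism to `ℚ` detects -/
theorem not_mem_of_hom {G : Type} [Group G] {z : G} (f : KC z →* Multiplicative ℚ) {m : ℕ}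
    (hmem : z ^ m ∈ KC z) (hf : f ⟨z ^ m, hmem⟩ ≠ 1) {n : ℕ} (hn : 0 < n) :
    z ^ n ∉ ⁅KC z, KC z⁆ := by
  intro h
  have hz : z ∈ KC z := ⟨1, one_pos, by rw [pow_one]⟩
  have h1 : ∀ x ∈ ⁅KC z, KC z⁆, ∀ hx : x ∈ KC z, f ⟨x, hx⟩ = 1 := by
    intro x hx
    have hle : ⁅KC z, KC z⁆ ≤ (f.ker).map (KC z).subtype := by
      rw [Subgroup.commutator_le]
      intro a ha b hb
      refine ⟨⁅(⟨a, ha⟩ : KC z), (⟨b, hb⟩ : KC z)⁆, ?_, rfl⟩
      rw [SetLike.mem_coe, MonoidHom.mem_ker, map_commutatorElement, commutatorElement_def]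
      rw [mul_comm (f ⟨a, ha⟩) (f ⟨b, hb⟩), mul_assoc (f ⟨b, hb⟩), mul_inv_cancel, mul_one,
        mul_inv_cancel]
    obtain ⟨y, hy, rfl⟩ := hle hx
    intro _
    exact hy
  have h2 := h1 _ h ((KC z).pow_mem hz n)
  have h3 : f ⟨z, hz⟩ ^ n = 1 := by
    rw [← map_pow]
    exact h2
  have h4 : f ⟨z ^ m, hmem⟩ = f ⟨z, hz⟩ ^ m := by
    rw [← map_pow]
    rfl
  apply hf
  rw [h4]
  have h5 : (n : ℚ) * (f ⟨z, hz⟩).toAdd = 0 := by
    have h6 := congrArg Multiplicative.toAdd h3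
    rw [toAdd_pow, toAdd_one] at h6
    simpa using h6
  rcases mul_eq_zero.1 h5 with h6 | h6
  · exact absurd h6 (by positivity)
  · have h7 : f ⟨z, hz⟩ = 1 := by
      rw [← ofAdd_toAdd (f ⟨z, hz⟩), h6]
      rfl
    rw [h7, one_pow]

section tree

variable {G V : Type} [Group G] [MulAction G V] {T : SimpleGraph V}

theorem al_of_det {v : V} (hD : Det (MulAction.stabilizer G v)) {z : G} (hz : InfOrd z)
    (hv : z • v = v) : Al z (Kz z v) := by
  intro n hn h
  have hz' : ∀ n : ℕ, 0 < n → (⟨z, hv⟩ : MulAction.stabilizer G v) ^ n ≠ 1 := by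
    intro n hn h
    exact hz n hn (congrArg Subtype.val h)
  apply hD ⟨z, hv⟩ hz' n hn
  have hle : ⁅Kz z v, Kz z v⁆ ≤ (⁅KC (⟨z, hv⟩ : MulAction.stabilizer G v), KC ⟨z, hv⟩⁆).map
      (MulAction.stabilizer G v).subtype := by
    rw [Subgroup.commutator_le]
    rintro a ⟨ha, i, hi, ha'⟩ b ⟨hb, j, hj, hb'⟩
    refine ⟨⁅(⟨a, ha⟩ : MulAction.stabilizer G v), (⟨b, hb⟩ : MulAction.stabilizer G v)⁆, ?_, rfl⟩
    refine Subgroup.commutator_mem_commutator ⟨i, hi, Subtype.ext ha'⟩ ⟨j, hj, Subtype.ext hb'⟩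
  obtain ⟨y, hy, hy'⟩ := hle h
  have h1 : y = (⟨z, hv⟩ : MulAction.stabilizer G v) ^ n := Subtype.ext hy'
  rwa [h1] at hy

theorem Kz_le (z : G) (v : V) : Kz z v ≤ KC z := fun _ h => h.2

/-- logarithms with base `z` on the elements of a vertex stabilizer which commute with a power
of `z` -/
theorem exists_log {v : V} (hD : Det (MulAction.stabilizer G v)) {z : G} (hz : InfOrd z) {m : ℕ}
    (hm : 0 < m) (hmv : z ^ m • v = v) :
    ∃ F : G → ℚ, (∀ a ∈ Kz z v, ∀ b ∈ Kz z v, F (a * b) = F a + F b) ∧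
      ∀ a ∈ Kz z v, ∀ (j : ℕ) (k : ℤ), 0 < j → a ^ j = z ^ k → j * F a = k := by
  have hzm : InfOrd (z ^ m) := fun n hn h => hz (m * n) (Nat.mul_pos hm hn) (by rw [pow_mul, h])
  have hKz : Kz (z ^ m) v = Kz z v := Q182.De.Kz_pow z v hm
  have hal := al_of_det hD hzm hmv
  obtain ⟨ψ, h1, h2⟩ := exists_psi hzm (Kz (z ^ m) v) (by
    intro k hk
    by_contra hne
    refine hal k.natAbs (Int.natAbs_pos.2 hne) ?_
    rcases Int.natAbs_eq k with h | h
    · have h3 : (z ^ m) ^ k.natAbs = (z ^ m) ^ k := by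
        conv_rhs => rw [h]
        rw [zpow_natCast]
      rw [h3]
      exact hk
    · have h3 : (z ^ m) ^ k.natAbs = ((z ^ m) ^ k)⁻¹ := by
        conv_rhs => rw [h]
        rw [zpow_neg, inv_inv, zpow_natCast]
      rw [h3]
      exact Subgroup.inv_mem _ hk)
  rw [hKz] at h1 h2
  refine ⟨fun g => m * ψ g, fun a ha b hb => ?_, fun a ha j k hj hjk => ?_⟩
  · show m * ψ (a * b) = m * ψ a + m * ψ b
    rw [h1 a ha b hb]
    ring
  · show j * (m * ψ a) = k
    have h3 : LC (z ^ m) a ((k : ℚ) / (j * m : ℕ)) := by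
      refine ⟨j * m, k, Nat.mul_pos hj hm, ?_, rfl⟩
      rw [pow_mul, hjk, ← zpow_natCast, ← zpow_mul, ← zpow_natCast, ← zpow_mul, mul_comm]
    rw [h2 a ha _ h3]
    have h4 : (m : ℚ) ≠ 0 := by positivity
    have h5 : (j : ℚ) ≠ 0 := by positivity
    push_cast
    field_simp

/-- **detection is inherited by groups acting on trees with virtually cyclic edge stabilizers** -/
theorem det_tree (hT : TreeAct G T) (hvc : VcEdges G T)
    (hst : ∀ v : V, Det (MulAction.stabilizer G v)) : Det G := by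
  classical
  intro z hz n hn
  by_cases hell : ∃ v : V, ∃ m : ℕ, 0 < m ∧ z ^ m • v = v
  swap
  · -- hyperbolic elements
    push Not at hell
    have h0 : ∀ v : V, z • v ≠ v := fun v h => hell v 1 one_pos (by rw [pow_one]; exact h)
    obtain ⟨L, l, hax⟩ := hT.exists_axis h0
    have hpos := hax.pos
    have hc : ∀ g : KC z, ∃ c : ℤ, ∀ i, (g : G) • L i = L (c + i) := by
      rintro ⟨g, k, hk, hg⟩
      have hax' : IsAxis T (z ^ k) L (k * l) :=
        { line := hax.line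
          pos := Nat.mul_pos hk hax.pos
          smul := fun i => by
            have h1 := hax.smul_zpow (k : ℤ) i
            rw [zpow_natCast] at h1
            rw [h1]
            push_cast
            rfl }
      exact hT.commute_axis hax' hg
    choose c hc using hc
    have hmul : ∀ g h : KC z, c (g * h) = c g + c h := by
      intro g h
      have h1 := hc (g * h) 0
      have h2 : ((g * h : KC z) : G) • L 0 = L (c g + (c h + 0)) := by
        rw [Subgroup.coe_mul, mul_smul, hc h, hc g]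
      have h3 := hax.line.injective hT.isTree (h1.symm.trans h2)
      omega
    let f : KC z →* Multiplicative ℚ :=
      { toFun := fun g => Multiplicative.ofAdd (c g : ℚ)
        map_one' := by
          have h1 := hmul 1 1
          rw [mul_one] at h1
          have h2 : c 1 = 0 := by omega
          rw [h2]
          simp
        map_mul' := fun g h => by
          rw [hmul, ← ofAdd_add]
          push_cast
          rfl }
    have hz1 : z ∈ KC z := ⟨1, one_pos, by rw [pow_one]⟩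
    refine not_mem_of_hom f ((KC z).pow_mem hz1 1) ?_ hn
    intro h
    have h1 : c ⟨z ^ 1, (KC z).pow_mem hz1 1⟩ = l := by
      have h2 := hc ⟨z ^ 1, (KC z).pow_mem hz1 1⟩ 0
      have h3 : (z ^ 1) • L 0 = L (0 + l) := by rw [pow_one, hax.smul]
      have h4 := hax.line.injective hT.isTree (h2.symm.trans h3)
      omega
    have h2 : (c ⟨z ^ 1, (KC z).pow_mem hz1 1⟩ : ℚ) = 0 := congrArg Multiplicative.toAdd h
    rw [h1] at h2
    have h3 : (l : ℚ) = 0 := by exact_mod_cast h2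
    have h4 : l = 0 := by exact_mod_cast h3
    omega
  -- elliptic elements
  obtain ⟨Y, hYdef⟩ : ∃ Y : Set V, Y = {v | ∃ m : ℕ, 0 < m ∧ z ^ m • v = v} := ⟨_, rfl⟩
  have memY : ∀ v, v ∈ Y ↔ ∃ m : ℕ, 0 < m ∧ z ^ m • v = v := by
    intro v
    rw [hYdef]
    rfl
  have hlog : ∀ v, v ∈ Y → ∃ F : G → ℚ,
      (∀ a ∈ Kz z v, ∀ b ∈ Kz z v, F (a * b) = F a + F b) ∧
      ∀ a ∈ Kz z v, ∀ (j : ℕ) (k : ℤ), 0 < j → a ^ j = z ^ k → j * F a = k := by
    intro v hv
    obtain ⟨m, hm, hmv⟩ := (memY v).1 hv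
    exact exists_log (hst v) hz hm hmv
  choose! F hF1 hF2 using hlog
  have hYH : ∀ (g : KC z) (v : V), v ∈ Y → g • v ∈ Y := by
    rintro ⟨g, k, hk, hg⟩ v hv
    obtain ⟨m, hm, hmv⟩ := (memY v).1 hv
    refine (memY _).2 ⟨k * m, Nat.mul_pos hk hm, ?_⟩
    have h1 : g * z ^ (k * m) = z ^ (k * m) * g := by
      rw [pow_mul]
      exact ((show Commute g (z ^ k) from hg).pow_right m).eq
    show z ^ (k * m) • g • v = g • v
    rw [← mul_smul, ← h1, mul_smul]
    congr 1
    rw [mul_comm k, pow_mul]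
    have h2 : ∀ i : ℕ, (z ^ m) ^ i • v = v := by
      intro i
      induction i with
      | zero => rw [pow_zero, one_smul]
      | succ i ih => rw [pow_succ, mul_smul, hmv, ih]
    exact h2 k
  have hpowfix : ∀ (g : G) (v : V), g • v = v → ∀ i : ℕ, g ^ i • v = v := by
    intro g v h i
    induction i with
    | zero => rw [pow_zero, one_smul]
    | succ i ih => rw [pow_succ, mul_smul, h, ih]
  have hconn : ∀ v ∈ Y, ∀ w ∈ Y, ∃ (n : ℕ) (q : ℕ → V), q 0 = v ∧ q n = w ∧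
      (∀ i < n, T.Adj (q i) (q (i + 1))) ∧ ∀ i ≤ n, q i ∈ Y := by
    intro v hv w hw
    obtain ⟨m, hm, hmv⟩ := (memY v).1 hv
    obtain ⟨m', hm', hmw⟩ := (memY w).1 hw
    obtain ⟨q, hq0, hqn, hadj, hd, _⟩ := exists_geod hT.isTree v w
    refine ⟨_, q, hq0, hqn, hadj, fun i hi => (memY _).2 ⟨m * m', Nat.mul_pos hm hm', ?_⟩⟩
    refine hT.convex (u := v) (v := w) ?_ ?_ ?_
    · rw [pow_mul]
      exact hpowfix _ _ hmv _
    · rw [mul_comm, pow_mul]
      exact hpowfix _ _ hmw _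
    · obtain ⟨h1, h2⟩ := hd i hi
      rw [h1, h2]
      omega
  -- representatives of the orbits of vertices
  obtain ⟨rep, hrep⟩ : ∃ rep : V → V, ∀ v, rep v =
      (Quotient.mk (MulAction.orbitRel (KC z) V) v).out := ⟨_, fun _ => rfl⟩
  have hr : ∀ v : V, ∃ s : KC z, s • rep v = v := by
    intro v
    have h1 : (MulAction.orbitRel (KC z) V) (Quotient.mk (MulAction.orbitRel (KC z) V) v).out v :=
      Quotient.exact (Quotient.out_eq _)
    rw [hrep]
    exact (MulAction.orbitRel (KC z) V).symm h1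
  choose r hr using hr
  have hrepY : ∀ v, v ∈ Y → rep v ∈ Y := by
    intro v hv
    have h1 := hYH (r v)⁻¹ v hv
    have h2 : (r v)⁻¹ • v = rep v := by rw [inv_smul_eq_iff, hr]
    rwa [h2] at h1
  have hrepinv : ∀ (h : KC z) (v : V), rep (h • v) = rep v := by
    intro h v
    rw [hrep, hrep]
    congr 1
    exact Quotient.sound ⟨h, rfl⟩
  -- the elements of the stabilizers of the representatives
  have hmemK : ∀ (u : KC z) (v : V), u • v = v → (u : G) ∈ Kz z v := fun u v h => ⟨h, u.2⟩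
  obtain ⟨c, hcdef⟩ : ∃ c : KC z → V → ℚ, ∀ h v, c h v =
      F (rep v) (((r v)⁻¹ * h * r (h⁻¹ • v) : KC z) : G) := ⟨_, fun _ _ => rfl⟩
  have hfix : ∀ (h : KC z) (v : V), ((r v)⁻¹ * h * r (h⁻¹ • v)) • rep v = rep v := by
    intro h v
    have h1 := hr (h⁻¹ • v)
    rw [hrepinv] at h1
    rw [mul_smul, mul_smul, h1, smul_inv_smul, inv_smul_eq_iff, hr]
  have hcoc : ∀ (h k : KC z), ∀ v ∈ Y, c (h * k) v = c h v + c k (h⁻¹ • v) := by
    intro h k v hv
    have e : ((r v)⁻¹ * (h * k) * r ((h * k)⁻¹ • v) : KC z) =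
        ((r v)⁻¹ * h * r (h⁻¹ • v)) * ((r (h⁻¹ • v))⁻¹ * k * r (k⁻¹ • h⁻¹ • v)) := by
      rw [mul_inv_rev, mul_smul]
      group
    rw [hcdef, e, Subgroup.coe_mul, hF1 (rep v) (hrepY v hv) _ (hmemK _ _ (hfix h v)) _
      (hmemK _ _ (by
        have h1 := hfix k (h⁻¹ • v)
        rwa [hrepinv] at h1)), hcdef, hcdef, hrepinv]
  have hval : ∀ (h : KC z) (v : V), v ∈ Y → h • v = v → ∀ (j : ℕ) (i : ℤ), 0 < j →
      (h : G) ^ j = z ^ i → j * c h v = i := by
    intro h v hv hhv j i hj hji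
    have h0 : h⁻¹ • v = v := by rw [inv_smul_eq_iff, hhv]
    have h1 := hfix h v
    rw [hcdef]
    rw [h0] at h1 ⊢
    obtain ⟨k, hk, hk'⟩ := mem_KC.1 (r v).2
    -- conjugation by `r v` commutes with a power of `z`
    have h2 : ((((r v)⁻¹ * h * r v : KC z) : G)) ^ (j * k) = z ^ (i * k) := by
      have e1 : (((r v)⁻¹ * h * r v : KC z) : G) =
          ((r v : KC z) : G)⁻¹ * (h : G) * ((r v : KC z) : G)⁻¹⁻¹ := by
        rw [inv_inv]
        rfl
      rw [e1, conj_pow, pow_mul, hji]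
      have e2 : (z ^ i) ^ k = (z ^ k) ^ i := by
        rw [← zpow_natCast, ← zpow_natCast, ← zpow_mul, ← zpow_mul, mul_comm]
      rw [e2, inv_inv]
      have e3 : ((r v : KC z) : G) * (z ^ k) ^ i = (z ^ k) ^ i * ((r v : KC z) : G) :=
        ((show Commute ((r v : KC z) : G) (z ^ k) from hk').zpow_right i).eq
      rw [mul_assoc, ← e3, inv_mul_cancel_left, ← zpow_natCast, ← zpow_mul, mul_comm]
    have h3 := hF2 (rep v) (hrepY v hv) _ (hmemK _ _ h1) (j * k) (i * k) (Nat.mul_pos hj hk) h2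
    rw [Nat.cast_mul, Int.cast_mul, Int.cast_natCast] at h3
    have h4 : (k : ℚ) ≠ 0 := by positivity
    have h5 : (k : ℚ) * (j * F (rep v) (((r v)⁻¹ * h * r v : KC z) : G)) = k * i := by
      have e : (k : ℚ) * (j * F (rep v) (((r v)⁻¹ * h * r v : KC z) : G)) =
          j * k * F (rep v) (((r v)⁻¹ * h * r v : KC z) : G) := by ring
      rw [e, h3]
      ring
    exact mul_left_cancel₀ h4 h5
  obtain ⟨f, hf⟩ := tree_hom hT.isTree (fun (g : KC z) v w h => hT.adj g v w h) Y hYH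
    (by
      obtain ⟨v, h⟩ := hell
      exact ⟨v, (memY v).2 h⟩) hconn c hcoc (by
    intro h v hv w hw hvw hhv hhw
    obtain ⟨m, hm, hmv⟩ := (memY v).1 hv
    obtain ⟨m', hm', hmw⟩ := (memY w).1 hw
    have hz1 : z ^ (m * m') ∈ Est G v w := by
      refine ⟨?_, ?_⟩
      · show z ^ (m * m') • v = v
        rw [pow_mul]
        exact hpowfix _ _ hmv _
      · show z ^ (m * m') • w = w
        rw [mul_comm, pow_mul]
        exact hpowfix _ _ hmw _
    have hz2 : InfOrd (z ^ (m * m')) := fun i hi h1 =>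
      hz (m * m' * i) (Nat.mul_pos (Nat.mul_pos hm hm') hi) (by rw [pow_mul, h1])
    have hz3 := Q182.Cyl.zp_index (hvc v w hvw) hz2 hz1
    obtain ⟨j, hj, _, hjm⟩ := Subgroup.exists_pow_mem_of_relIndex_ne_zero hz3
      (show (h : G) ∈ Est G v w from ⟨hhv, hhw⟩)
    obtain ⟨i, hi⟩ := Subgroup.mem_zpowers_iff.1 (Subgroup.mem_inf.1 hjm).1
    have h2 : (h : G) ^ j = z ^ (((m * m' : ℕ) : ℤ) * i) := by
      rw [zpow_mul, zpow_natCast, hi]
    have h3 := hval h v hv hhv j _ hj h2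
    have h4 := hval h w hw hhw j _ hj h2
    have h5 : (j : ℚ) ≠ 0 := by positivity
    exact mul_left_cancel₀ h5 (h3.trans h4.symm))
  obtain ⟨v, m, hm, hmv⟩ := hell
  have hz1 : z ∈ KC z := ⟨1, one_pos, by rw [pow_one]⟩
  refine not_mem_of_hom f ((KC z).pow_mem hz1 m) ?_ hn
  have hv : v ∈ Y := (memY v).2 ⟨m, hm, hmv⟩
  rw [hf _ v hv hmv]
  have h1 := hval ⟨z ^ m, (KC z).pow_mem hz1 m⟩ v hv hmv 1 m one_pos
    (by rw [pow_one, zpow_natCast])
  intro h2
  have h3 : c ⟨z ^ m, (KC z).pow_mem hz1 m⟩ v = 0 := congrArg Multiplicative.toAdd h2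
  rw [h3] at h1
  push_cast at h1
  have h4 : (m : ℚ) = 0 := by linarith
  have h5 : m = 0 := by exact_mod_cast h4
  omega

end tree

end Q27.HT
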